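import Mathlib
import Pool.Agent.V5helper66.LD.Stm

/-! Assembly of the average case lower bound: elementary bounds, parameters, units. -/

set_option autoImplicit false

open Finset

namespace V5LD

open Classical in
theorem ldisc_le {d : ℕ} {N : ℕ} (hN : 0 < N) (a : Fin d → ℕ) (u v : Fin d → ℝ)
    (h : ∀ i, 0 ≤ u i ∧ u i ≤ v i ∧ v i ≤ 1) : ldisc N a u v ≤ 1 := by
  have hN' : (0 : ℝ) < N := by exact_mod_cast hN
  unfold ldisc
  have h1 : (((Finset.range N).filter (fun m => ∀ i, u i ≤ pt N a m i ∧ pt N a m i < v i)).card : ℝ)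
      / N ≤ 1 := by
    rw [div_le_one hN']
    have := Finset.card_filter_le (Finset.range N)
      (fun m => ∀ i, u i ≤ pt N a m i ∧ pt N a m i < v i)
    rw [Finset.card_range] at this
    exact_mod_cast this
  have h2 : (0 : ℝ) ≤ (((Finset.range N).filter
      (fun m => ∀ i, u i ≤ pt N a m i ∧ pt N a m i < v i)).card : ℝ) / N := by positivity
  have h3 : (0 : ℝ) ≤ ∏ i, (v i - u i) :=
    Finset.prod_nonneg fun i _ => by linarith [(h i).2.1]
  have h4 : ∏ i, (v i - u i) ≤ 1 :=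
    Finset.prod_le_one (fun i _ => by linarith [(h i).2.1])
      fun i _ => by linarith [(h i).1, (h i).2.2]
  rw [abs_le]
  constructor <;> linarith

theorem discLE_disc {d : ℕ} {N : ℕ} (hN : 0 < N) (a : Fin d → ℕ) : DiscLE N a (disc N a) := by
  intro u v h
  refine le_csSup ⟨1, ?_⟩ ⟨u, v, h, rfl⟩
  rintro _ ⟨u, v, h, rfl⟩
  exact ldisc_le hN a u v h

open Classical in
theorem disc_ge {d : ℕ} (hd : 0 < d) {N : ℕ} (hN : 0 < N) (a : Fin d → ℕ) :
    1 / (2 * (N : ℝ)) ≤ disc N a := by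
  have hN' : (1 : ℝ) ≤ N := by exact_mod_cast hN
  have hv0 : (0 : ℝ) < 1 / (2 * (N : ℝ)) := by positivity
  have hv1 : 1 / (2 * (N : ℝ)) ≤ 1 := by
    rw [div_le_one (by positivity)]
    linarith
  refine le_trans ?_ (discLE_disc hN a (fun _ => 0) (fun _ => 1 / (2 * (N : ℝ)))
    (fun i => ⟨le_refl _, hv0.le, hv1⟩))
  unfold ldisc
  refine le_trans ?_ (le_abs_self _)
  have h1 : (1 : ℝ) ≤ (((Finset.range N).filter (fun m => ∀ i : Fin d, (0 : ℝ) ≤ pt N a m i ∧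
      pt N a m i < 1 / (2 * (N : ℝ)))).card : ℝ) := by
    have : 0 < ((Finset.range N).filter (fun m => ∀ i : Fin d, (0 : ℝ) ≤ pt N a m i ∧
      pt N a m i < 1 / (2 * (N : ℝ)))).card := by
      refine Finset.card_pos.2 ⟨0, Finset.mem_filter.2 ⟨Finset.mem_range.2 hN, fun i => ?_⟩⟩
      unfold pt
      rw [Nat.cast_zero, zero_mul, zero_div, Int.fract_zero]
      exact ⟨le_refl _, hv0⟩
    exact_mod_cast this
  have h2 : ∏ i : Fin d, (1 / (2 * (N : ℝ)) - 0) ≤ 1 / (2 * (N : ℝ)) := by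
    rw [Finset.prod_const, sub_zero, Finset.card_univ, Fintype.card_fin]
    calc (1 / (2 * (N : ℝ))) ^ d ≤ (1 / (2 * (N : ℝ))) ^ 1 :=
          pow_le_pow_of_le_one hv0.le hv1 hd
      _ = _ := pow_one _
  have h3 : 1 / (N : ℝ) ≤ (((Finset.range N).filter (fun m => ∀ i : Fin d, (0 : ℝ) ≤ pt N a m i ∧
      pt N a m i < 1 / (2 * (N : ℝ)))).card : ℝ) / N := by
    gcongr
  have h4 : 1 / (N : ℝ) = 1 / (2 * (N : ℝ)) + 1 / (2 * (N : ℝ)) := by
    field_simp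
    norm_num
  linarith

/-- the conditions on the parameters hold for large `N`. -/
theorem params (n : ℕ) {c e : ℝ} (hc : 0 < c) (he : 0 < e) : ∃ N0 : ℕ, ∀ N : ℕ, N0 ≤ N →
    3 ≤ Rp N ∧ 0 < t1p n N ∧ 0 < t2p n N ∧ t2p n N ≤ Tp n N c ∧
    2 * Tp n N c ≤ Rp N * t1p n N ∧ Tp n N c * t2p n N ≤ e * (Rp N * (t1p n N) ^ 2) ∧
    0 ≤ (Real.log N) ^ n * Real.log (Real.log N) := by
  have hlog : Filter.Tendsto (fun N : ℕ => Real.log (N : ℝ)) Filter.atTop Filter.atTop :=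
    Real.tendsto_log_atTop.comp tendsto_natCast_atTop_atTop
  have hδ : 0 < min (1 / (2 * c)) (e / c) := lt_min (by positivity) (by positivity)
  have h1 := (isLittleO_log_rpow_atTop (by norm_num : (0 : ℝ) < 1 / 8)).bound hδ
  have h2 := (tendsto_rpow_atTop (by norm_num : (0 : ℝ) < 1 / 8)).eventually_ge_atTop (1 / c)
  have h3 := Filter.eventually_ge_atTop (Real.exp 9 : ℝ)
  obtain ⟨N0, hN0⟩ := Filter.eventually_atTop.1 (hlog.eventually (h1.and (h2.and h3)))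
  refine ⟨N0, fun N hN => ?_⟩
  obtain ⟨k1, k2, k3⟩ := hN0 N hN
  unfold Rp t1p t2p Tp
  generalize Real.log (N : ℝ) = x at *
  have he9 : (9 : ℝ) + 1 ≤ Real.exp 9 := Real.add_one_le_exp 9
  have hx9 : 9 ≤ x := by linarith
  have hx0 : 0 < x := by linarith
  have hx1 : 1 ≤ x := by linarith
  have hlx : 1 ≤ Real.log x := by
    rw [Real.le_log_iff_exp_le hx0]
    refine le_trans (Real.exp_le_exp.2 ?_) k3
    norm_num
  have hlx0 : 0 < Real.log x := by linarith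
  have k1' : Real.log x ≤ min (1 / (2 * c)) (e / c) * x ^ (1 / 8 : ℝ) := by
    rw [Real.norm_of_nonneg hlx0.le, Real.norm_of_nonneg (Real.rpow_nonneg hx0.le _)] at k1
    exact k1
  have hp8 : 0 < x ^ (1 / 8 : ℝ) := Real.rpow_pos_of_pos hx0 _
  have k4 : Real.log x ≤ (1 / (2 * c)) * x ^ (1 / 8 : ℝ) :=
    k1'.trans (mul_le_mul_of_nonneg_right (min_le_left _ _) hp8.le)
  have k5 : Real.log x ≤ (e / c) * x ^ (1 / 8 : ℝ) :=
    k1'.trans (mul_le_mul_of_nonneg_right (min_le_right _ _) hp8.le)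
  have hpn : 0 < x ^ n := pow_pos hx0 n
  have e0 : x ^ n = x ^ (n : ℝ) := (Real.rpow_natCast x n).symm
  refine ⟨?_, Real.rpow_pos_of_pos hx0 _, Real.rpow_pos_of_pos hx0 _, ?_, ?_, ?_, by positivity⟩
  · rw [← Real.sqrt_eq_rpow]
    apply Real.le_sqrt_of_sq_le
    norm_num
    exact hx9
  · have e1 : x ^ ((n : ℝ) - 1 / 8) = x ^ n * (x ^ (1 / 8 : ℝ))⁻¹ := by
      rw [Real.rpow_sub hx0, e0, div_eq_mul_inv]
    rw [e1]
    have h5 : (x ^ (1 / 8 : ℝ))⁻¹ ≤ c := by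
      rw [inv_le_comm₀ hp8 hc, ← one_div]
      exact k2
    calc x ^ n * (x ^ (1 / 8 : ℝ))⁻¹ ≤ x ^ n * c := mul_le_mul_of_nonneg_left h5 hpn.le
      _ = c * (x ^ n * 1) := by ring
      _ ≤ c * (x ^ n * Real.log x) := by gcongr
  · have e1 : x ^ (1 / 2 : ℝ) * x ^ ((n : ℝ) - 1 / 4) = x ^ n * (x ^ (1 / 8 : ℝ) * x ^ (1 / 8 : ℝ)) := by
      rw [e0, ← Real.rpow_add hx0, ← Real.rpow_add hx0, ← Real.rpow_add hx0]
      congr 1
      ring
    have h8 : 1 ≤ x ^ (1 / 8 : ℝ) := Real.one_le_rpow hx1 (by norm_num)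
    rw [e1]
    have h5 : 2 * (c * Real.log x) ≤ x ^ (1 / 8 : ℝ) := by
      calc 2 * (c * Real.log x) ≤ 2 * (c * ((1 / (2 * c)) * x ^ (1 / 8 : ℝ))) := by gcongr
        _ = x ^ (1 / 8 : ℝ) := by field_simp
    calc 2 * (c * (x ^ n * Real.log x)) = x ^ n * (2 * (c * Real.log x)) := by ring
      _ ≤ x ^ n * (x ^ (1 / 8 : ℝ) * 1) := by
        rw [mul_one]
        exact mul_le_mul_of_nonneg_left h5 hpn.le
      _ ≤ x ^ n * (x ^ (1 / 8 : ℝ) * x ^ (1 / 8 : ℝ)) := by gcongr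
  · have e1 : x ^ (1 / 2 : ℝ) * (x ^ ((n : ℝ) - 1 / 4)) ^ 2 = x ^ n * x ^ n := by
      rw [e0, pow_two, ← Real.rpow_add hx0, ← Real.rpow_add hx0, ← Real.rpow_add hx0]
      congr 1
      ring
    have e2 : x ^ ((n : ℝ) - 1 / 8) * x ^ (1 / 8 : ℝ) = x ^ n := by
      rw [e0, ← Real.rpow_add hx0]
      congr 1
      ring
    rw [e1]
    have hpp : 0 < x ^ ((n : ℝ) - 1 / 8) := Real.rpow_pos_of_pos hx0 _
    calc c * (x ^ n * Real.log x) * x ^ ((n : ℝ) - 1 / 8)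
        ≤ c * (x ^ n * ((e / c) * x ^ (1 / 8 : ℝ))) * x ^ ((n : ℝ) - 1 / 8) := by gcongr
      _ = (c * (e / c)) * x ^ n * (x ^ ((n : ℝ) - 1 / 8) * x ^ (1 / 8 : ℝ)) := by ring
      _ = e * (x ^ n * x ^ n) := by
        rw [e2, mul_div_cancel₀ e hc.ne']
        ring

theorem exists_unit (N a : ℕ) (hN : 0 < N) :
    ∃ u : (ZMod N)ˣ, (a : ZMod N) = ((Nat.gcd a N : ℕ) : ZMod N) * (u : ZMod N) := by
  have : NeZero N := ⟨hN.ne'⟩
  obtain ⟨x, M, hcop, hx, hM⟩ := Nat.exists_coprime a N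
  set g := Nat.gcd a N with hg
  have hMN : M ∣ N := ⟨g, hM⟩
  obtain ⟨u, hu⟩ := ZMod.unitsMap_surjective hMN (ZMod.unitOfCoprime x hcop)
  refine ⟨u, ?_⟩
  have h1 : ZMod.castHom hMN (ZMod M) (u : ZMod N) = (x : ZMod M) := by
    have h2 := congrArg (fun z : (ZMod M)ˣ => (z : ZMod M)) hu
    simpa [ZMod.unitsMap_def] using h2
  have h2 : (((u : ZMod N).val : ℕ) : ZMod M) = (x : ZMod M) := by
    rw [← h1]
    conv_rhs => rw [← ZMod.natCast_zmod_val (u : ZMod N)]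
    rw [map_natCast]
  have h3 := (ZMod.natCast_eq_natCast_iff _ _ _).1 h2
  have h4 : Nat.ModEq N (g * (u : ZMod N).val) (g * x) := by
    have h5 := h3.mul_left' g
    rwa [mul_comm g M, ← hM] at h5
  have h5 := (ZMod.natCast_eq_natCast_iff _ _ _).2 h4
  rw [hx, mul_comm x g, ← h5]
  push_cast
  rw [ZMod.natCast_zmod_val]

end V5LD
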