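import Mathlib
import Pool.Agent.V5helper66.LD.Stm
import Pool.Agent.V5helper13.LD.A1

/-! Assembly of the average case lower bound (job `ASM`). -/

set_option autoImplicit false

open Finset

namespace V5LD

section units

variable {N : ℕ} [NeZero N]

/-- multiplication by the inverse of a unit, on representatives. -/
def mi (u : (ZMod N)ˣ) (x : Fin N) : Fin N :=
  ⟨(((u⁻¹ : (ZMod N)ˣ) : ZMod N) * ((x : ℕ) : ZMod N)).val, ZMod.val_lt _⟩

theorem cast_mi (u : (ZMod N)ˣ) (x : Fin N) :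
    (((mi u x : Fin N) : ℕ) : ZMod N) = ((u⁻¹ : (ZMod N)ˣ) : ZMod N) * ((x : ℕ) : ZMod N) := by
  unfold mi
  exact ZMod.natCast_zmod_val _

theorem mul_cast_mi (u : (ZMod N)ˣ) (x : Fin N) :
    (u : ZMod N) * (((mi u x : Fin N) : ℕ) : ZMod N) = ((x : ℕ) : ZMod N) := by
  rw [cast_mi, ← mul_assoc, Units.mul_inv, one_mul]

theorem mi_inj (u : (ZMod N)ˣ) : Function.Injective (mi u) := by
  intro x y h
  have h1 : ((x : ℕ) : ZMod N) = ((y : ℕ) : ZMod N) := by
    rw [← mul_cast_mi u x, ← mul_cast_mi u y, h]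
  have h2 := (ZMod.natCast_eq_natCast_iff' _ _ _).1 h1
  rw [Nat.mod_eq_of_lt x.2, Nat.mod_eq_of_lt y.2] at h2
  exact Fin.ext h2

end units

/-- transport of the good event. -/
theorem good_transport {n N : ℕ} [NeZero N] {c : ℝ} (a : Fin (n + 1) → Fin N) (u : (ZMod N)ˣ)
    (hu : (((a 0 : Fin N) : ℕ) : ZMod N) = ((Nat.gcd (a 0) N : ℕ) : ZMod N) * (u : ZMod N))
    (h : GoodB n N (Nat.gcd (a 0) N) c (fun i => ((mi u (a i.succ) : Fin N) : ℕ))) :
    ∃ H : Finset (Fin (n + 1) → ℤ), Adm N (Rp N) (t1p n N) (t2p n N) (Tp n N c) H ∧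
      ∀ h ∈ H, (N : ℤ) ∣ ∑ i, h i * (((a i : Fin N) : ℕ) : ℤ) := by
  obtain ⟨H, hH, hdvd⟩ := h
  refine ⟨H, hH, fun h hh => ?_⟩
  have h1 := hdvd h hh
  rw [← ZMod.intCast_zmod_eq_zero_iff_dvd] at h1 ⊢
  rw [Fin.sum_univ_succ]
  push_cast at h1 ⊢
  have h2 : ∀ i : Fin n, (((a i.succ : Fin N) : ℕ) : ZMod N) =
      (u : ZMod N) * (((mi u (a i.succ) : Fin N) : ℕ) : ZMod N) := fun i => (mul_cast_mi u _).symm
  calc (h 0 : ZMod N) * (((a 0 : Fin N) : ℕ) : ZMod N) +
        ∑ i : Fin n, (h i.succ : ZMod N) * (((a i.succ : Fin N) : ℕ) : ZMod N)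
      = (u : ZMod N) * ((h 0 : ZMod N) * ((Nat.gcd (a 0) N : ℕ) : ZMod N) +
        ∑ i : Fin n, (h i.succ : ZMod N) * (((mi u (a i.succ) : Fin N) : ℕ) : ZMod N)) := by
        rw [hu, mul_add, Finset.mul_sum]
        congr 1
        · ring
        · refine Finset.sum_congr rfl fun i _ => ?_
          rw [h2 i]
          ring
    _ = 0 := by rw [h1, mul_zero]

/-- transport of the condition on common divisors. -/
theorem coLe_transport {n N F : ℕ} [NeZero N] (a : Fin (n + 1) → Fin N) (u : (ZMod N)ˣ)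
    (h : ¬ ∃ e : ℕ, F < e ∧ e ∣ N ∧ ∀ i, e ∣ ((a i : Fin N) : ℕ)) :
    CoLe (Nat.gcd (a 0) N) F (fun i => ((mi u (a i.succ) : Fin N) : ℕ)) := by
  intro e he hb
  by_contra hF
  refine h ⟨e, by omega, he.trans (Nat.gcd_dvd_right _ _), fun i => ?_⟩
  refine Fin.cases (he.trans (Nat.gcd_dvd_left _ _)) (fun j => ?_) i
  have h1 : ((((u : ZMod N).val * (mi u (a j.succ) : Fin N) : ℕ)) : ZMod N) =
      ((a j.succ : Fin N) : ℕ) := by
    push_cast
    rw [ZMod.natCast_zmod_val, mul_cast_mi]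
  have h2 := (ZMod.natCast_eq_natCast_iff _ _ _).1 h1
  have h3 := h2.of_dvd (he.trans (Nat.gcd_dvd_right _ _))
  exact (Nat.ModEq.dvd_iff h3 (dvd_refl e)).1 (Dvd.dvd.mul_left (hb j) _)

open Classical in
/-- the number of the exceptional tuples. -/
theorem count {n N : ℕ} [NeZero N] (F : ℕ) (η δ c : ℝ)
    (U : Fin N → (ZMod N)ˣ)
    (h1 : (((univ : Finset (Fin (n + 1) → Fin N)).filter (fun a =>
      ∃ e : ℕ, F < e ∧ e ∣ N ∧ ∀ i, e ∣ ((a i : Fin N) : ℕ))).card : ℝ) ≤ δ * (N : ℝ) ^ (n + 1))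
    (h2 : (((Finset.range N).filter (fun x => (N : ℝ) ^ η < (Nat.gcd x N : ℝ))).card : ℝ) ≤ δ * N)
    (h3 : ∀ g : ℕ, g ∣ N → (g : ℝ) ≤ (N : ℝ) ^ η →
      (((univ : Finset (Fin n → Fin N)).filter (fun b =>
        CoLe g F (fun i => ((b i : Fin N) : ℕ)) ∧
        ¬ GoodB n N g c (fun i => ((b i : Fin N) : ℕ)))).card : ℝ) ≤ δ * (N : ℝ) ^ n) :
    (((univ : Finset (Fin (n + 1) → Fin N)).filter (fun a =>
      ¬ GoodB n N (Nat.gcd (a 0) N) c (fun i => ((mi (U (a 0)) (a i.succ) : Fin N) : ℕ)))).card : ℝ) ≤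
      3 * δ * (N : ℝ) ^ (n + 1) := by
  set S1 := (univ : Finset (Fin (n + 1) → Fin N)).filter (fun a =>
      ∃ e : ℕ, F < e ∧ e ∣ N ∧ ∀ i, e ∣ ((a i : Fin N) : ℕ)) with hS1
  set S2 := (univ : Finset (Fin (n + 1) → Fin N)).filter (fun a =>
      (N : ℝ) ^ η < (Nat.gcd (a 0) N : ℝ)) with hS2
  set S3 := (univ : Finset (Fin (n + 1) → Fin N)).filter (fun a =>
      ((Nat.gcd (a 0) N : ℕ) : ℝ) ≤ (N : ℝ) ^ η ∧
      CoLe (Nat.gcd (a 0) N) F (fun i => ((mi (U (a 0)) (a i.succ) : Fin N) : ℕ)) ∧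
      ¬ GoodB n N (Nat.gcd (a 0) N) c (fun i => ((mi (U (a 0)) (a i.succ) : Fin N) : ℕ))) with hS3
  have hsub : ((univ : Finset (Fin (n + 1) → Fin N)).filter (fun a =>
      ¬ GoodB n N (Nat.gcd (a 0) N) c (fun i => ((mi (U (a 0)) (a i.succ) : Fin N) : ℕ)))) ⊆
      S1 ∪ (S2 ∪ S3) := by
    intro a ha
    have ha' := (Finset.mem_filter.1 ha).2
    by_cases k1 : a ∈ S1
    · exact Finset.mem_union_left _ k1
    by_cases k2 : a ∈ S2
    · exact Finset.mem_union_right _ (Finset.mem_union_left _ k2)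
    refine Finset.mem_union_right _ (Finset.mem_union_right _ ?_)
    refine Finset.mem_filter.2 ⟨Finset.mem_univ _, ?_, ?_, ha'⟩
    · by_contra h
      exact k2 (Finset.mem_filter.2 ⟨Finset.mem_univ _, not_le.1 h⟩)
    · exact coLe_transport a _ fun h => k1 (Finset.mem_filter.2 ⟨Finset.mem_univ _, h⟩)
  have c2 : (S2.card : ℝ) ≤ δ * (N : ℝ) ^ (n + 1) := by
    have : S2.card ≤ (((Finset.range N).filter (fun x => (N : ℝ) ^ η < (Nat.gcd x N : ℝ))) ×ˢ
        (univ : Finset (Fin n → Fin N))).card := by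
      refine Finset.card_le_card_of_injOn (fun a => (((a 0 : Fin N) : ℕ), fun i => a i.succ)) ?_ ?_
      · intro a ha
        have ha' := (Finset.mem_filter.1 (Finset.mem_coe.1 ha)).2
        exact Finset.mem_coe.2 (Finset.mem_product.2 ⟨Finset.mem_filter.2
          ⟨Finset.mem_range.2 (a 0).2, ha'⟩, Finset.mem_univ _⟩)
      · intro a _ b _ hab
        have h4 := Prod.ext_iff.1 hab
        funext i
        refine Fin.cases (Fin.ext h4.1) (fun j => congrFun h4.2 j) i
    rw [Finset.card_product, Finset.card_univ, Fintype.card_fun, Fintype.card_fin,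
      Fintype.card_fin] at this
    calc (S2.card : ℝ) ≤ (((Finset.range N).filter
          (fun x => (N : ℝ) ^ η < (Nat.gcd x N : ℝ))).card : ℝ) * (N : ℝ) ^ n := by
          exact_mod_cast this
      _ ≤ (δ * N) * (N : ℝ) ^ n := mul_le_mul_of_nonneg_right h2 (by positivity)
      _ = _ := by ring
  have c3 : (S3.card : ℝ) ≤ δ * (N : ℝ) ^ (n + 1) := by
    have : S3.card ≤ ((univ.filter (fun x : Fin N => ((Nat.gcd x N : ℕ) : ℝ) ≤ (N : ℝ) ^ η)).sigma
        (fun x : Fin N => (univ : Finset (Fin n → Fin N)).filter (fun b =>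
        CoLe (Nat.gcd x N) F (fun i => ((b i : Fin N) : ℕ)) ∧
        ¬ GoodB n N (Nat.gcd x N) c (fun i => ((b i : Fin N) : ℕ))))).card := by
      refine Finset.card_le_card_of_injOn
        (fun a => (⟨a 0, fun i => mi (U (a 0)) (a i.succ)⟩ : (_ : Fin N) × (Fin n → Fin N))) ?_ ?_
      · intro a ha
        have ha' := (Finset.mem_filter.1 (Finset.mem_coe.1 ha)).2
        exact Finset.mem_coe.2 (Finset.mem_sigma.2 ⟨Finset.mem_filter.2
          ⟨Finset.mem_univ _, ha'.1⟩, Finset.mem_filter.2 ⟨Finset.mem_univ _, ha'.2⟩⟩)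
      · intro a _ b _ hab
        have h4 := Sigma.mk.inj_iff.1 hab
        have h5 := eq_of_heq h4.2
        have h6 : a 0 = b 0 := h4.1
        funext i
        refine Fin.cases h6 (fun j => ?_) i
        have h7 : mi (U (a 0)) (a j.succ) = mi (U (b 0)) (b j.succ) := congrFun h5 j
        rw [h6] at h7
        exact mi_inj _ h7
    rw [Finset.card_sigma] at this
    calc (S3.card : ℝ) ≤ ((∑ x ∈ univ.filter (fun x : Fin N => ((Nat.gcd x N : ℕ) : ℝ) ≤ (N : ℝ) ^ η),
          ((univ : Finset (Fin n → Fin N)).filter (fun b =>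
        CoLe (Nat.gcd x N) F (fun i => ((b i : Fin N) : ℕ)) ∧
        ¬ GoodB n N (Nat.gcd x N) c (fun i => ((b i : Fin N) : ℕ)))).card : ℕ) : ℝ) := by
          exact_mod_cast this
      _ ≤ ∑ x ∈ univ.filter (fun x : Fin N => ((Nat.gcd x N : ℕ) : ℝ) ≤ (N : ℝ) ^ η),
          δ * (N : ℝ) ^ n := by
        push_cast
        refine Finset.sum_le_sum fun x hx => ?_
        exact h3 _ (Nat.gcd_dvd_right _ _) (Finset.mem_filter.1 hx).2
      _ ≤ (N : ℝ) * (δ * (N : ℝ) ^ n) := by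
        rw [Finset.sum_const, nsmul_eq_mul]
        have hδ : 0 ≤ δ * (N : ℝ) ^ n := by
          have hN : (0 : ℝ) < N := by exact_mod_cast (NeZero.pos N)
          have h5 : 0 ≤ δ * (N : ℝ) := le_trans (Nat.cast_nonneg _) h2
          have h6 : 0 ≤ δ := nonneg_of_mul_nonneg_left h5 hN
          positivity
        refine mul_le_mul_of_nonneg_right ?_ hδ
        have := Finset.card_filter_le (univ : Finset (Fin N))
          (fun x : Fin N => ((Nat.gcd x N : ℕ) : ℝ) ≤ (N : ℝ) ^ η)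
        rw [Finset.card_univ, Fintype.card_fin] at this
        exact_mod_cast this
      _ = _ := by ring
  have hc : (((univ : Finset (Fin (n + 1) → Fin N)).filter (fun a =>
      ¬ GoodB n N (Nat.gcd (a 0) N) c (fun i => ((mi (U (a 0)) (a i.succ) : Fin N) : ℕ)))).card : ℝ) ≤
      S1.card + (S2.card + S3.card) := by
    have := (Finset.card_le_card hsub).trans ((Finset.card_union_le _ _).trans
      (Nat.add_le_add_left (Finset.card_union_le _ _) _))
    exact_mod_cast this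
  linarith

open Classical in
theorem t_ASM : S_ASM := by
  intro hDET hPB hDIV hGCD d hd χ hχ
  obtain ⟨n, rfl⟩ : ∃ n, d = n + 1 := ⟨d - 1, by omega⟩
  have hn : 1 ≤ n := by omega
  rw [Nat.add_sub_cancel]
  set δ : ℝ := (1 - χ) / 4 with hδ
  have hδ0 : 0 < δ := by rw [hδ]; linarith
  obtain ⟨c0, hc0, e0, he0, hdet⟩ := hDET (n + 1) (by omega)
  obtain ⟨η, hη, hpb⟩ := hPB n hn
  obtain ⟨F, hF⟩ := exists_nat_ge (1 / δ)
  obtain ⟨c, hc, N1, hN1⟩ := hpb δ hδ0 (F + 1)
  obtain ⟨N2, hN2⟩ := hDIV η hη δ hδ0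
  obtain ⟨N3, hN3⟩ := params n hc he0
  -- small `N`
  set N4 := max N1 (max N2 (max N3 1)) with hN4
  set M : ℝ := 1 + ∑ N ∈ Finset.range N4, |(Real.log N) ^ n * Real.log (Real.log N)| with hM
  have hM1 : 1 ≤ M := by
    rw [hM]
    have : 0 ≤ ∑ N ∈ Finset.range N4, |(Real.log N) ^ n * Real.log (Real.log N)| :=
      Finset.sum_nonneg fun _ _ => abs_nonneg _
    linarith
  refine ⟨min (c0 * c) (1 / (2 * M)), lt_min (by positivity) (by positivity), fun N hN => ?_⟩
  have hNpos : (0 : ℝ) < N := by exact_mod_cast hN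
  have hcardU : ((univ : Finset (Fin (n + 1) → Fin N)).card : ℝ) = (N : ℝ) ^ (n + 1) := by
    rw [Finset.card_univ, Fintype.card_fun, Fintype.card_fin, Fintype.card_fin]
    push_cast
    ring
  by_cases hsmall : N < N4
  · have hall : ∀ a : Fin (n + 1) → Fin N,
        min (c0 * c) (1 / (2 * M)) * ((Real.log N) ^ n * Real.log (Real.log N)) / N
          ≤ disc N (fun i => ((a i : Fin N) : ℕ)) := by
      intro a
      refine le_trans ?_ (disc_ge (by omega) hN _)
      have h1 : (Real.log N) ^ n * Real.log (Real.log N) ≤ M := by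
        refine (le_abs_self _).trans ?_
        rw [hM]
        have := Finset.single_le_sum (f := fun N : ℕ =>
          |(Real.log (N : ℝ)) ^ n * Real.log (Real.log N)|) (fun _ _ => abs_nonneg _)
          (Finset.mem_range.2 hsmall)
        linarith
      have h2 : min (c0 * c) (1 / (2 * M)) * ((Real.log N) ^ n * Real.log (Real.log N)) ≤ 1 / 2 := by
        have hm0 : 0 < min (c0 * c) (1 / (2 * M)) := lt_min (by positivity) (by positivity)
        calc min (c0 * c) (1 / (2 * M)) * ((Real.log N) ^ n * Real.log (Real.log N))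
            ≤ min (c0 * c) (1 / (2 * M)) * M := mul_le_mul_of_nonneg_left h1 hm0.le
          _ ≤ 1 / (2 * M) * M := mul_le_mul_of_nonneg_right (min_le_right _ _) (by linarith)
          _ = 1 / 2 := by field_simp
      calc min (c0 * c) (1 / (2 * M)) * ((Real.log N) ^ n * Real.log (Real.log N)) / N
          ≤ (1 / 2) / N := by gcongr
        _ = 1 / (2 * (N : ℝ)) := by rw [div_div]
    rw [Finset.filter_true_of_mem fun a _ => hall a, hcardU]
    have : 0 ≤ (N : ℝ) ^ (n + 1) := by positivity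
    nlinarith
  · have hNZ : NeZero N := ⟨by omega⟩
    have hle1 : N1 ≤ N := (le_max_left _ _).trans (not_lt.1 hsmall)
    have hle2 : N2 ≤ N := (le_max_left _ _).trans ((le_max_right _ _).trans (not_lt.1 hsmall))
    have hle3 : N3 ≤ N := (le_max_left _ _).trans
      ((le_max_right _ _).trans ((le_max_right _ _).trans (not_lt.1 hsmall)))
    choose U hU using fun x : Fin N => exists_unit N (x : ℕ) (by omega)
    have k1 : (((univ : Finset (Fin (n + 1) → Fin N)).filter (fun a =>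
        ∃ e : ℕ, F + 1 < e ∧ e ∣ N ∧ ∀ i, e ∣ ((a i : Fin N) : ℕ))).card : ℝ) ≤
        δ * (N : ℝ) ^ (n + 1) := by
      refine (hGCD n (F + 1) N hn (by omega) hN).trans ?_
      rw [div_le_iff₀ (by positivity)]
      have h1 : 1 ≤ δ * ((F + 1 : ℕ) : ℝ) := by
        have h2 : 1 / δ ≤ ((F + 1 : ℕ) : ℝ) := by push_cast; linarith
        rwa [div_le_iff₀' hδ0] at h2
      have h2 : 0 ≤ (N : ℝ) ^ (n + 1) := by positivity
      nlinarith
    have key := count (n := n) (F + 1) η δ c U k1 (hN2 N hle2) (hN1 N hle1)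
    obtain ⟨p1, p2, p3, p4, p5, p6, p7⟩ := hN3 N hle3
    have hgood : ((univ : Finset (Fin (n + 1) → Fin N)).filter (fun a =>
        ¬ ¬ GoodB n N (Nat.gcd (a 0) N) c (fun i => ((mi (U (a 0)) (a i.succ) : Fin N) : ℕ)))) ⊆
        (univ : Finset (Fin (n + 1) → Fin N)).filter (fun a =>
        min (c0 * c) (1 / (2 * M)) * ((Real.log N) ^ n * Real.log (Real.log N)) / N
          ≤ disc N (fun i => ((a i : Fin N) : ℕ))) := by
      intro a ha
      have ha' := not_not.1 (Finset.mem_filter.1 ha).2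
      refine Finset.mem_filter.2 ⟨Finset.mem_univ _, ?_⟩
      obtain ⟨H, hH, hdvd⟩ := good_transport a (U (a 0)) (hU (a 0)) ha'
      have h1 := hdet N (fun i => ((a i : Fin N) : ℕ)) H _ _ _ _ _ hN p1 p2 p3 p4 p5 p6 hH hdvd
        (discLE_disc hN _)
      refine le_trans ?_ h1
      unfold Tp
      rw [← mul_assoc c0 c]
      exact div_le_div_of_nonneg_right (mul_le_mul_of_nonneg_right (min_le_left _ _) p7) hNpos.le
    have h5 := Finset.card_filter_add_card_filter_not (s := (univ : Finset (Fin (n + 1) → Fin N)))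
      (fun a => ¬ GoodB n N (Nat.gcd (a 0) N) c (fun i => ((mi (U (a 0)) (a i.succ) : Fin N) : ℕ)))
    have h6 : (((univ : Finset (Fin (n + 1) → Fin N)).filter (fun a =>
        ¬ GoodB n N (Nat.gcd (a 0) N) c (fun i => ((mi (U (a 0)) (a i.succ) : Fin N) : ℕ)))).card : ℝ) +
        (((univ : Finset (Fin (n + 1) → Fin N)).filter (fun a =>
        ¬ ¬ GoodB n N (Nat.gcd (a 0) N) c (fun i => ((mi (U (a 0)) (a i.succ) : Fin N) : ℕ)))).card : ℝ)
        = (N : ℝ) ^ (n + 1) := by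
      rw [← hcardU]
      exact_mod_cast h5
    have h7 : ((((univ : Finset (Fin (n + 1) → Fin N)).filter (fun a =>
        ¬ ¬ GoodB n N (Nat.gcd (a 0) N) c
          (fun i => ((mi (U (a 0)) (a i.succ) : Fin N) : ℕ)))).card : ℕ) : ℝ) ≤
        (((univ : Finset (Fin (n + 1) → Fin N)).filter (fun a =>
        min (c0 * c) (1 / (2 * M)) * ((Real.log N) ^ n * Real.log (Real.log N)) / N
          ≤ disc N (fun i => ((a i : Fin N) : ℕ)))).card : ℝ) := by
      exact_mod_cast Finset.card_le_card hgood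
    refine le_trans ?_ h7
    have h8 : χ = 1 - 4 * δ := by rw [hδ]; ring
    have h9 : 0 ≤ (N : ℝ) ^ (n + 1) := by positivity
    rw [h8]
    nlinarith [mul_nonneg hδ0.le h9]

end V5LD
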