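import Mathlib
import Pool.Agent.V5helper66.LD.Stm
import Pool.Agent.Helper112.Arith

/-! Few residues have a large greatest common divisor with the modulus (job `DIV`). -/

set_option autoImplicit false

open Finset

namespace V5LD

open Classical in
/-- multiples of a divisor -/
theorem card_mult_le {N e : ℕ} (he : e ∣ N) (hN : 0 < N) :
    ((Finset.range N).filter (fun x : ℕ => e ∣ x)).card ≤ N / e := by
  have he0 : 0 < e := Nat.pos_of_dvd_of_pos he hN
  have h : (Finset.range N).filter (fun x => e ∣ x) ⊆ (Finset.range (N / e)).image (fun y => e * y) := by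
    intro x hx
    obtain ⟨h1, y, rfl⟩ := Finset.mem_filter.1 hx
    refine Finset.mem_image.2 ⟨y, Finset.mem_range.2 ?_, rfl⟩
    have h2 := Finset.mem_range.1 h1
    rw [← Nat.mul_div_cancel' he] at h2
    exact lt_of_mul_lt_mul_left h2 (Nat.zero_le _)
  refine (Finset.card_le_card h).trans (Finset.card_image_le.trans ?_)
  rw [Finset.card_range]

open Classical in
theorem t_DIV : S_DIV := by
  intro η hη ε hε
  obtain ⟨C, hC, hdiv⟩ := Pool.Agent.Helper112.divisor_bound (η / 2) (by positivity)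
  have ht : Filter.Tendsto (fun N : ℕ => C * (N : ℝ) ^ (-(η / 2))) Filter.atTop (nhds (C * 0)) :=
    ((tendsto_rpow_neg_atTop (by positivity : 0 < η / 2)).comp
      tendsto_natCast_atTop_atTop).const_mul C
  rw [mul_zero] at ht
  obtain ⟨N0, hN0⟩ := Filter.eventually_atTop.1 ((ht.eventually_lt_const hε).and
    (Filter.eventually_ge_atTop 1))
  refine ⟨N0, fun N hN => ?_⟩
  obtain ⟨h1, h2⟩ := hN0 N hN
  have hN1 : (1 : ℝ) ≤ N := by exact_mod_cast h2
  have hNpos : (0 : ℝ) < N := by linarith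
  have hsub : (Finset.range N).filter (fun x => (N : ℝ) ^ η < (Nat.gcd x N : ℝ)) ⊆
      (N.divisors.filter (fun e : ℕ => (N : ℝ) ^ η < (e : ℝ))).biUnion
        (fun e : ℕ => (Finset.range N).filter (fun x : ℕ => e ∣ x)) := by
    intro x hx
    obtain ⟨h3, h4⟩ := Finset.mem_filter.1 hx
    refine Finset.mem_biUnion.2 ⟨Nat.gcd x N, Finset.mem_filter.2 ⟨?_, h4⟩,
      Finset.mem_filter.2 ⟨h3, Nat.gcd_dvd_left _ _⟩⟩
    exact Nat.mem_divisors.2 ⟨Nat.gcd_dvd_right _ _, by omega⟩
  have hcard : (((Finset.range N).filter (fun x => (N : ℝ) ^ η < (Nat.gcd x N : ℝ))).card : ℝ) ≤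
      ∑ e ∈ N.divisors.filter (fun e : ℕ => (N : ℝ) ^ η < (e : ℝ)), (N : ℝ) / (N : ℝ) ^ η := by
    have h5 := (Finset.card_le_card hsub).trans Finset.card_biUnion_le
    calc (((Finset.range N).filter (fun x => (N : ℝ) ^ η < (Nat.gcd x N : ℝ))).card : ℝ)
        ≤ ((∑ e ∈ N.divisors.filter (fun e : ℕ => (N : ℝ) ^ η < (e : ℝ)),
          ((Finset.range N).filter (fun x : ℕ => e ∣ x)).card : ℕ) : ℝ) := by exact_mod_cast h5
      _ ≤ _ := by
        push_cast
        refine Finset.sum_le_sum fun e he => ?_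
        obtain ⟨h6, h7⟩ := Finset.mem_filter.1 he
        have h8 := card_mult_le (Nat.dvd_of_mem_divisors h6) (by omega : 0 < N)
        calc (((Finset.range N).filter (fun x : ℕ => e ∣ x)).card : ℝ) ≤ ((N / e : ℕ) : ℝ) := by
              exact_mod_cast h8
          _ ≤ (N : ℝ) / e := Nat.cast_div_le
          _ ≤ (N : ℝ) / (N : ℝ) ^ η := by
            apply div_le_div_of_nonneg_left hNpos.le (by positivity) h7.le
  rw [Finset.sum_const, nsmul_eq_mul] at hcard
  have h9 : ((N.divisors.filter (fun e : ℕ => (N : ℝ) ^ η < (e : ℝ))).card : ℝ) ≤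
      C * (N : ℝ) ^ (η / 2) := by
    refine le_trans ?_ (hdiv N h2)
    exact_mod_cast Finset.card_filter_le _ _
  calc (((Finset.range N).filter (fun x => (N : ℝ) ^ η < (Nat.gcd x N : ℝ))).card : ℝ)
      ≤ ((N.divisors.filter (fun e : ℕ => (N : ℝ) ^ η < (e : ℝ))).card : ℝ) *
        ((N : ℝ) / (N : ℝ) ^ η) := hcard
    _ ≤ (C * (N : ℝ) ^ (η / 2)) * ((N : ℝ) / (N : ℝ) ^ η) :=
      mul_le_mul_of_nonneg_right h9 (by positivity)
    _ = (C * (N : ℝ) ^ (-(η / 2))) * N := by
      have h10 : (N : ℝ) ^ η = (N : ℝ) ^ (η / 2) * (N : ℝ) ^ (η / 2) := by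
        rw [← Real.rpow_add hNpos]; ring_nf
      rw [h10, Real.rpow_neg hNpos.le]
      have h11 : (N : ℝ) ^ (η / 2) ≠ 0 := by positivity
      field_simp
    _ ≤ ε * N := mul_le_mul_of_nonneg_right h1.le hNpos.le

end V5LD
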